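import Mathlib
import Pool.Agent.X277.ExtTools

/-!
# An injective module in `⊥P` of infinite projective dimension

Let `k` be a field and `R` the ring of pairs `(d, m)` of sequences in `k` with
`(d, m)(d', m') = (d d', (d_{i+1} m'_i + m_i d'_i)_i)`.  It is the (completed) path algebra of the
quiver `0 → 1 → 2 → ⋯` modulo all paths of length two.  The simple module `A = S_0` at the source
is injective, satisfies `Ext^i(A, P) = 0` for all `i ≥ 1` and all projective `P`, and has
infinite projective dimension.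
-/

namespace Pool.Agent.Results.MP_3e7e0d_al.InjectivePerp

open CategoryTheory Abelian Limits

/-- `M ∈ ⊥P`: `Ext^i(M, P) = 0` for all `i ≥ 1` and all projective modules `P`. -/
def Perp {R : Type} [Ring R] (M : ModuleCat.{0} R) : Prop :=
  ∀ P : ModuleCat.{0} R, Projective P → ∀ i : ℕ, 1 ≤ i → Subsingleton (Ext M P i)

/-- `PerpDimLE n A`: there is an exact sequence `0 → T_n → ⋯ → T_0 → A → 0` with all
`T_i ∈ ⊥P`. -/
def PerpDimLE {R : Type} [Ring R] : ℕ → ModuleCat.{0} R → Prop
  | 0, A => Perp A
  | (n + 1), A => ∃ (T : ModuleCat.{0} R) (f : T ⟶ A), Epi f ∧ Perp T ∧ PerpDimLE n (kernel f)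

/-- The `⊥P`-dimension of `A`, in `{0, 1, …, ∞}`. -/
noncomputable def perpDim {R : Type} [Ring R] (A : ModuleCat.{0} R) : ℕ∞ :=
  ⨅ (n : ℕ) (_ : PerpDimLE n A), (n : ℕ∞)

/-- The ring of pairs `(d, m)` of sequences. -/
@[ext] structure QR (k : Type) where
  /-- diagonal part -/
  d : ℕ → k
  /-- arrow part -/
  m : ℕ → k

variable {k : Type} [Field k]

namespace QR

instance : Zero (QR k) := ⟨⟨0, 0⟩⟩
instance : One (QR k) := ⟨⟨1, 0⟩⟩
instance : Add (QR k) := ⟨fun x y => ⟨x.d + y.d, x.m + y.m⟩⟩
instance : Neg (QR k) := ⟨fun x => ⟨-x.d, -x.m⟩⟩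
instance : Mul (QR k) :=
  ⟨fun x y => ⟨x.d * y.d, fun i => x.d (i + 1) * y.m i + x.m i * y.d i⟩⟩

@[simp] lemma zero_d (i : ℕ) : (0 : QR k).d i = 0 := rfl
@[simp] lemma zero_m (i : ℕ) : (0 : QR k).m i = 0 := rfl
@[simp] lemma one_d (i : ℕ) : (1 : QR k).d i = 1 := rfl
@[simp] lemma one_m (i : ℕ) : (1 : QR k).m i = 0 := rfl
@[simp] lemma add_d (x y : QR k) (i : ℕ) : (x + y).d i = x.d i + y.d i := rfl
@[simp] lemma add_m (x y : QR k) (i : ℕ) : (x + y).m i = x.m i + y.m i := rfl
@[simp] lemma neg_d (x : QR k) (i : ℕ) : (-x).d i = - x.d i := rfl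
@[simp] lemma neg_m (x : QR k) (i : ℕ) : (-x).m i = - x.m i := rfl
@[simp] lemma mul_d (x y : QR k) (i : ℕ) : (x * y).d i = x.d i * y.d i := rfl
@[simp] lemma mul_m (x y : QR k) (i : ℕ) :
    (x * y).m i = x.d (i + 1) * y.m i + x.m i * y.d i := rfl

omit [Field k] in
lemma ext' {x y : QR k} (h1 : ∀ i, x.d i = y.d i) (h2 : ∀ i, x.m i = y.m i) : x = y :=
  QR.ext (funext h1) (funext h2)

instance : Ring (QR k) where
  add_assoc x y z := by apply ext' <;> intro i <;> simp <;> ring
  zero_add x := by apply ext' <;> intro i <;> simp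
  add_zero x := by apply ext' <;> intro i <;> simp
  add_comm x y := by apply ext' <;> intro i <;> simp <;> ring
  neg_add_cancel x := by apply ext' <;> intro i <;> simp
  mul_assoc x y z := by apply ext' <;> intro i <;> simp <;> ring
  one_mul x := by apply ext' <;> intro i <;> simp
  mul_one x := by apply ext' <;> intro i <;> simp
  left_distrib x y z := by apply ext' <;> intro i <;> simp <;> ring
  right_distrib x y z := by apply ext' <;> intro i <;> simp <;> ring
  zero_mul x := by apply ext' <;> intro i <;> simp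
  mul_zero x := by apply ext' <;> intro i <;> simp
  nsmul := nsmulRec
  zsmul := zsmulRec

end QR

/-- the character `d_i` -/
def dHom (i : ℕ) : QR k →+* k where
  toFun x := x.d i
  map_one' := rfl
  map_mul' _ _ := rfl
  map_zero' := rfl
  map_add' _ _ := rfl

/-- The simple module at the vertex `i`. -/
def Sm (k : Type) (_ : ℕ) : Type := k

instance (i : ℕ) : AddCommGroup (Sm k i) := inferInstanceAs (AddCommGroup k)
instance (i : ℕ) : Module (QR k) (Sm k i) := Module.compHom k (dHom i)

lemma Sm_smul (i : ℕ) (r : QR k) (a : k) :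
    r • (show Sm k i from a) = (show Sm k i from r.d i * a) := rfl

/-- The indecomposable projective module at the vertex `i`. -/
def Vm (k : Type) (_ : ℕ) : Type := k × k

instance (i : ℕ) : AddCommGroup (Vm k i) := inferInstanceAs (AddCommGroup (k × k))
instance (i : ℕ) : Module (QR k) (Vm k i) where
  smul r v := (r.d i * v.1, r.m i * v.1 + r.d (i + 1) * v.2)
  one_smul v := by
    obtain ⟨a, b⟩ := v
    change (((1 : QR k).d i * a, (1 : QR k).m i * a + (1 : QR k).d (i + 1) * b) : k × k) = (a, b)
    simp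
  mul_smul r s v := by
    change ((r * s).d i * v.1, (r * s).m i * v.1 + (r * s).d (i + 1) * v.2) =
      (r.d i * (s.d i * v.1), r.m i * (s.d i * v.1) + r.d (i + 1) * (s.m i * v.1 + s.d (i + 1) * v.2))
    simp only [QR.mul_d, QR.mul_m, Prod.mk.injEq]
    constructor <;> ring
  smul_zero r := by
    change ((r.d i * (0 : k), r.m i * 0 + r.d (i + 1) * 0) : k × k) = 0
    simp
  smul_add r v w := by
    change ((r.d i * (v.1 + w.1), r.m i * (v.1 + w.1) + r.d (i + 1) * (v.2 + w.2)) : k × k) =
      (r.d i * v.1 + r.d i * w.1, (r.m i * v.1 + r.d (i + 1) * v.2) + (r.m i * w.1 + r.d (i + 1) * w.2))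
    simp only [Prod.mk.injEq]
    constructor <;> ring
  add_smul r s v := by
    change (((r + s).d i * v.1, (r + s).m i * v.1 + (r + s).d (i + 1) * v.2) : k × k) =
      (r.d i * v.1 + s.d i * v.1, (r.m i * v.1 + r.d (i + 1) * v.2) + (s.m i * v.1 + s.d (i + 1) * v.2))
    simp only [QR.add_d, QR.add_m, Prod.mk.injEq]
    constructor <;> ring
  zero_smul v := by
    change ((((0 : QR k)).d i * v.1, ((0 : QR k)).m i * v.1 + ((0 : QR k)).d (i + 1) * v.2) : k × k) = 0
    simp

lemma Vm_smul (i : ℕ) (r : QR k) (a b : k) :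
    r • (show Vm k i from (a, b)) = (show Vm k i from (r.d i * a, r.m i * a + r.d (i + 1) * b)) :=
  rfl

/-- `Vm → R`, `(a, b) ↦ a e_i + b a_i` -/
def toR (i : ℕ) : Vm k i →ₗ[QR k] QR k where
  toFun v := ⟨fun j => if j = i then v.1 else 0, fun j => if j = i then v.2 else 0⟩
  map_add' v w := by
    apply QR.ext' <;> intro j <;> by_cases h : j = i <;> simp [h] <;> rfl
  map_smul' r v := by
    obtain ⟨a, b⟩ := v
    rw [Vm_smul]
    apply QR.ext' <;> intro j
    · by_cases h : j = i
      · subst h; simp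
      · simp [h]
    · by_cases h : j = i
      · subst h; simp; ring
      · simp [h]

/-- `R → Vm`, `r ↦ r e_i` -/
def fromR (i : ℕ) : QR k →ₗ[QR k] Vm k i :=
  LinearMap.toSpanSingleton (QR k) (Vm k i) (show Vm k i from (1, 0))

lemma fromR_apply (i : ℕ) (r : QR k) : fromR i r = (show Vm k i from (r.d i, r.m i)) := by
  change ((r.d i * 1, r.m i * 1 + r.d (i + 1) * 0) : k × k) = (r.d i, r.m i)
  simp

instance Vm_projective (i : ℕ) : Module.Projective (QR k) (Vm k i) := by
  refine Module.Projective.of_split (toR i) (fromR i) ?_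
  ext v
  obtain ⟨a, b⟩ := v
  change fromR i (toR i (show Vm k i from (a, b))) = (show Vm k i from (a, b))
  rw [fromR_apply]
  change (((if i = i then a else 0), (if i = i then b else 0)) : k × k) = (a, b)
  simp

/-- the inclusion `S_{i+1} → Vm i` -/
def inc (i : ℕ) : Sm k (i + 1) →ₗ[QR k] Vm k i where
  toFun b := (show k × k from (0, b))
  map_add' a b := by
    have : ∀ a b : k, ((0, a + b) : k × k) = (0, a) + (0, b) := by intro a b; simp
    exact this a b
  map_smul' r b := by
    have : ∀ b : k, ((0, r.d (i + 1) * b) : k × k) =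
        (r.d i * 0, r.m i * 0 + r.d (i + 1) * b) := by intro b; simp
    exact this b

lemma inc_fst (i : ℕ) (b : Sm k (i + 1)) : (inc i b).1 = 0 := rfl
lemma inc_snd (i : ℕ) (b : Sm k (i + 1)) : (inc i b).2 = b := rfl

/-- the projection `Vm i → S_i` -/
def prj (i : ℕ) : Vm k i →ₗ[QR k] Sm k i where
  toFun v := v.1
  map_add' _ _ := rfl
  map_smul' _ _ := rfl

lemma inc_injective (i : ℕ) : Function.Injective (inc (k := k) i) := by
  intro a b h
  exact congrArg (fun v : k × k => v.2) h

lemma prj_surjective (i : ℕ) : Function.Surjective (prj (k := k) i) := fun a => ⟨(a, 0), rfl⟩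

lemma inc_prj_exact (i : ℕ) : Function.Exact (inc (k := k) i) (prj i) := by
  intro v
  obtain ⟨a, b⟩ := v
  constructor
  · intro h
    have ha : a = 0 := h
    subst ha
    exact ⟨b, rfl⟩
  · rintro ⟨c, hc⟩
    have : ((0, c) : k × k) = (a, b) := hc
    exact (congrArg Prod.fst this).symm

/-- the idempotent `e_i` and the arrow `a_i` -/
def e (i : ℕ) : QR k := ⟨fun j => if j = i then 1 else 0, 0⟩
/-- arrow -/
def ar (i : ℕ) : QR k := ⟨0, fun j => if j = i then 1 else 0⟩

/-- divide an element of `e_{i+1} R` killed by `a_{i+1}` by `a_i` -/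
def dv (i : ℕ) (r : QR k) : QR k := ⟨fun j => if j = i then r.m i else 0, 0⟩

lemma dv_spec (i : ℕ) (r : QR k) (h1 : e (i + 1) * r = r) (h2 : ar (i + 1) * r = 0) :
    ar i * dv i r = r := by
  have hd : ∀ j, r.d j = 0 := by
    intro j
    by_cases hj : j = i + 1
    · subst hj
      have := congrArg (fun x : QR k => x.m (i + 1)) h2
      simpa [ar] using this
    · have := congrArg (fun x : QR k => x.d j) h1
      simpa [e, hj] using this.symm
  have hm : ∀ j, j ≠ i → r.m j = 0 := by
    intro j hj
    have := congrArg (fun x : QR k => x.m j) h1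
    simpa [e, hj] using this.symm
  apply QR.ext' <;> intro j
  · simp [ar, hd]
  · by_cases hj : j = i
    · subst hj; simp [ar, dv]
    · simp [ar, dv, hj, hm j hj]

lemma exists_div (P : Type) [AddCommGroup P] [Module (QR k) P] [Module.Projective (QR k) P]
    (i : ℕ) (p : P) (h1 : (e (i + 1) : QR k) • p = p) (h2 : (ar (i + 1) : QR k) • p = 0) :
    ∃ q : P, (ar i : QR k) • q = p := by
  obtain ⟨s, hs⟩ := (inferInstance : Module.Projective (QR k) P)
  have hs' : Finsupp.linearCombination (QR k) id (s p) = p := hs p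
  refine ⟨Finsupp.linearCombination (QR k) id ((s p).mapRange (dv i) ?_), ?_⟩
  · apply QR.ext' <;> intro j <;> simp [dv]
  · rw [← map_smul]
    conv_rhs => rw [← hs']
    congr 1
    ext1 x
    rw [Finsupp.smul_apply, Finsupp.mapRange_apply, smul_eq_mul]
    apply dv_spec
    · have := congrArg (fun f : P →₀ QR k => f x) (congrArg s h1)
      simpa using this
    · have := congrArg (fun f : P →₀ QR k => f x) (congrArg s h2)
      simpa using this

lemma ext_one (i : ℕ) (P : Type) [AddCommGroup P] [Module (QR k) P]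
    [Module.Projective (QR k) P] :
    Subsingleton (Ext (ModuleCat.of (QR k) (Sm k i)) (ModuleCat.of (QR k) P) 1) := by
  refine Pool.Agent.X277.subsingleton_ext_one_of_extend (inc i) (prj i) (inc_injective i)
    (prj_surjective i) (inc_prj_exact i) ?_
  intro φ
  let one : Sm k (i + 1) := (1 : k)
  have hx : ∀ (r : QR k), r • φ one = φ (show Sm k (i + 1) from r.d (i + 1)) := by
    intro r
    rw [← map_smul]
    congr 1
    change r.d (i + 1) * (1 : k) = _
    rw [mul_one]
  obtain ⟨q, hq⟩ := exists_div P i (φ one)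
    (by rw [hx]; congr 1; simp [e]; rfl)
    (by
      rw [hx]
      have : (show Sm k (i + 1) from (ar (i + 1) : QR k).d (i + 1)) = 0 := rfl
      rw [this, map_zero])
  refine ⟨(LinearMap.toSpanSingleton (QR k) P q) ∘ₗ toR i, ?_⟩
  ext b
  change toR i (inc i b) • q = φ b
  have h1 : toR i (inc i b) = (⟨fun _ => b, 0⟩ : QR k) * ar i := by
    have : ∀ b' : k, (⟨fun j => if j = i then 0 else 0, fun j => if j = i then b' else 0⟩ : QR k)
        = (⟨fun _ => b', 0⟩ : QR k) * ar i := by
      intro b'
      apply QR.ext' <;> intro j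
      · simp [ar]
      · by_cases h : j = i <;> simp [ar, h]
    exact this b
  rw [h1, mul_smul, hq, hx]

theorem ext_all (n : ℕ) (i : ℕ) (P : Type) [AddCommGroup P] [Module (QR k) P]
    [Module.Projective (QR k) P] :
    Subsingleton (Ext (ModuleCat.of (QR k) (Sm k i)) (ModuleCat.of (QR k) P) (n + 1)) := by
  induction n generalizing i with
  | zero => exact ext_one i P
  | succ n ih =>
    have hS := Pool.Agent.X277.sc_shortExact (inc i) (prj i) (inc_injective (k := k) i)
      (prj_surjective i) (inc_prj_exact i)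
    refine subsingleton_of_forall_eq 0 fun x => ?_
    have hV : Projective (ModuleCat.of (QR k) (Vm k i)) :=
      IsProjective.iff_projective (Vm k i) |>.1 inferInstance
    obtain ⟨y, hy⟩ := Ext.contravariant_sequence_exact₃ hS (ModuleCat.of (QR k) P) x
      (@Ext.eq_zero_of_projective _ _ _ _ (ModuleCat.of (QR k) (Vm k i)) _ (n + 1) hV _)
      (n₀ := n + 1) (by omega)
    have := (ih (i + 1)).elim y 0
    rw [← hy, this, Ext.comp_zero]

lemma not_projective (i : ℕ) : ¬ Module.Projective (QR k) (Sm k i) := by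
  intro hP
  let g : QR k →ₗ[QR k] Sm k i := LinearMap.toSpanSingleton (QR k) (Sm k i) (1 : k)
  have hg : ∀ r : QR k, g r = r.d i := by
    intro r
    change r.d i * (1 : k) = r.d i
    rw [mul_one]
  have hsurj : Function.Surjective g := by
    intro a
    exact ⟨⟨fun _ => a, 0⟩, hg _⟩
  obtain ⟨s, hs⟩ := Module.projective_lifting_property g (LinearMap.id (R := QR k) (M := Sm k i))
    hsurj
  let one : Sm k i := (1 : k)
  have h1 : g (s one) = one := LinearMap.congr_fun hs one
  have h2 : (ar i : QR k) * s one = 0 := by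
    have : (ar i : QR k) • s one = s ((ar i : QR k) • one) := (map_smul s _ _).symm
    rw [smul_eq_mul] at this
    rw [this]
    have h0 : (ar i : QR k) • one = 0 := by
      change (0 : k) * 1 = 0
      simp
    rw [h0, map_zero]
  have h3 := congrArg (fun x : QR k => x.m i) h2
  simp [ar] at h3
  rw [hg, h3] at h1
  exact one_ne_zero (α := k) h1.symm

theorem not_pdLT (n : ℕ) (i : ℕ) :
    ¬ HasProjectiveDimensionLT (ModuleCat.of (QR k) (Sm k i)) (n + 1) := by
  induction n generalizing i with
  | zero =>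
    intro h
    have : Projective (ModuleCat.of (QR k) (Sm k i)) := projective_iff_hasProjectiveDimensionLT_one.2 h
    exact not_projective i (IsProjective.iff_projective (Sm k i) |>.2 this)
  | succ n ih =>
    intro h
    have hS := Pool.Agent.X277.sc_shortExact (inc i) (prj i) (inc_injective (k := k) i)
      (prj_surjective i) (inc_prj_exact i)
    have hV : Projective (ModuleCat.of (QR k) (Vm k i)) :=
      IsProjective.iff_projective (Vm k i) |>.1 inferInstance
    exact ih (i + 1) ((hS.hasProjectiveDimensionLT_X₃_iff n hV).1 h)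

lemma baer : Module.Baer (QR k) (Sm k 0) := by
  intro I g
  have key : ∀ r : QR k, (e 0 : QR k) * r = (⟨fun _ => r.d 0, 0⟩ : QR k) * e 0 := by
    intro r
    apply QR.ext' <;> intro j
    · by_cases h : j = 0
      · subst h; simp [e]
      · simp [e, h]
    · simp [e]
  have hact : ∀ a : Sm k 0, (e 0 : QR k) • a = a := by
    intro a
    exact one_mul (show k from a)
  by_cases hI : (e 0 : QR k) ∈ I
  · refine ⟨LinearMap.toSpanSingleton (QR k) (Sm k 0) (g ⟨e 0, hI⟩), ?_⟩
    intro x hx
    have h1 : g ⟨x, hx⟩ = (e 0 : QR k) • g ⟨x, hx⟩ := (hact _).symm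
    rw [h1, ← map_smul]
    have h2 : (e 0 : QR k) • (⟨x, hx⟩ : I) = (⟨fun _ => x.d 0, 0⟩ : QR k) • ⟨e 0, hI⟩ := by
      apply Subtype.ext
      exact key x
    rw [h2, map_smul]
    rfl
  · refine ⟨0, ?_⟩
    intro x hx
    have h1 : g ⟨x, hx⟩ = (e 0 : QR k) • g ⟨x, hx⟩ := (hact _).symm
    rw [h1, ← map_smul]
    have hmem : (⟨fun _ => x.d 0, 0⟩ : QR k) * e 0 ∈ I := by
      rw [← key]; exact I.mul_mem_left _ hx
    have h3 : x.d 0 = 0 := by
      by_contra hne
      apply hI
      have : (e 0 : QR k) = ⟨fun _ => (x.d 0)⁻¹, 0⟩ * ((⟨fun _ => x.d 0, 0⟩ : QR k) * e 0) := by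
        apply QR.ext' <;> intro j
        · by_cases h : j = 0
          · subst h; simp [e, hne]
          · simp [e, h]
        · simp [e]
      rw [this]
      exact I.mul_mem_left _ hmem
    have h2 : (e 0 : QR k) • (⟨x, hx⟩ : I) = 0 := by
      apply Subtype.ext
      change (e 0 : QR k) * x = 0
      rw [key, h3]
      apply QR.ext' <;> intro j <;> simp
    rw [h2, map_zero]
    rfl

/-- **Main theorem.** There are a ring `R` and a left `R`-module `A` which is injective
(`id A = 0`), has `⊥P`-dimension `0`, and has infinite projective dimension. -/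
theorem result : ∃ (R : Type) (_ : Ring R) (A : ModuleCat.{0} R),
    injectiveDimension A = 0 ∧ perpDim A = 0 ∧ projectiveDimension A = ⊤ := by
  refine ⟨QR ℚ, inferInstance, ModuleCat.of (QR ℚ) (Sm ℚ 0), ?_, ?_, ?_⟩
  · have hinj : Injective (ModuleCat.of (QR ℚ) (Sm ℚ 0)) := by
      have : Module.Injective (QR ℚ) (Sm ℚ 0) := Module.Baer.injective baer
      exact Module.injective_object_of_injective_module (QR ℚ) (Sm ℚ 0)
    have h1 : injectiveDimension (ModuleCat.of (QR ℚ) (Sm ℚ 0)) ≤ ((0 : ℕ) : WithBot ℕ∞) := by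
      rw [injectiveDimension_le_iff]
      infer_instance
    have h2 : ((0 : ℕ) : WithBot ℕ∞) ≤ injectiveDimension (ModuleCat.of (QR ℚ) (Sm ℚ 0)) := by
      rw [injectiveDimension_ge_iff, hasInjectiveDimensionLT_zero_iff_isZero]
      intro hz
      have : Subsingleton (Sm ℚ 0) := ModuleCat.subsingleton_of_isZero hz
      exact one_ne_zero (α := ℚ) (this.elim (show Sm ℚ 0 from (1 : ℚ)) (show Sm ℚ 0 from (0 : ℚ)))
    exact le_antisymm h1 h2
  · have hperp : Perp (ModuleCat.of (QR ℚ) (Sm ℚ 0)) := by
      intro P hP i hi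
      obtain ⟨n, rfl⟩ : ∃ n, i = n + 1 := ⟨i - 1, by omega⟩
      have : Module.Projective (QR ℚ) P := IsProjective.iff_projective P |>.2 hP
      exact ext_all n 0 P
    refine le_antisymm ?_ bot_le
    exact iInf₂_le_of_le 0 hperp (by simp)
  · by_contra h
    obtain ⟨n, hn⟩ := (projectiveDimension_ne_top_iff _).1 h
    exact not_pdLT n 0 hn

end Pool.Agent.Results.MP_3e7e0d_al.InjectivePerp
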